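import Pool.Agent.Lib.MP_493d38_lc.XP.Unify
import Pool.Agent.Results.MP_493d38_lc.FewVariables
import Pool.Agent.Shared.ExpTime

/-!
The clocked algorithm: try all length vectors below the clock.
-/

namespace Pool.Agent.Lib.MP_493d38_lc.XP

open Pool.Agent.Shared.PolyTime N487b59b3

/-- an equation -/
abbrev Eqn := List (Bool × ℕ) × List (Bool × ℕ)

/-- the distinct variables -/
def vars (e : Eqn) : List (Bool × ℕ) := ((e.1 ++ e.2).filter fun s => s.1).dedup

/-- the algorithm with a clock -/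
def alg (p : Eqn × List Bool) : Bool :=
  (List.range p.2.length).any fun B => (List.range p.2.length).any fun m =>
    chk (fun s => (List.range p.2.length).take (m / B ^ (vars p.1).idxOf s % B)) p.1.1 p.1.2

@[fun_prop] theorem vars_pt {α : Type} [N487b59b3 α] {e : α → Eqn} (h : PT e) :
    PT (fun a => vars (e a)) := by
  unfold vars
  fun_prop

@[fun_prop] theorem idx_pb {α : Type} [N487b59b3 α] {l : α → List (Bool × ℕ)} {x : α → Bool × ℕ}
    (h : PT l) : PB (fun a => (l a).idxOf (x a)) :=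
  (PB.length h).mono fun _ => List.idxOf_le_length

theorem alg_pt : PT alg := by
  unfold alg chk toks
  fun_prop

theorem alg_sound {p : Eqn × List Bool} (h : alg p = true) :
    ∃ h : ℕ → List ℕ, value h p.1.1 = value h p.1.2 := by
  simp only [alg, List.any_eq_true] at h
  obtain ⟨_, _, _, _, h⟩ := h
  exact chk_sound h

theorem exists_code (B : ℕ) (hB : 0 < B) (k : ℕ) : ∀ l : ℕ → ℕ, (∀ i, l i < B) →
    ∃ m, m < B ^ k ∧ ∀ i, i < k → m / B ^ i % B = l i := by
  induction k with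
  | zero => exact fun _ _ => ⟨0, by simp, by simp⟩
  | succ k ih =>
    intro l hl
    obtain ⟨m, h1, h2⟩ := ih (fun i => l (i + 1)) (fun i => hl _)
    refine ⟨l 0 + B * m, ?_, fun i hi => ?_⟩
    · have := hl 0
      have := Nat.mul_le_mul_left B (Nat.succ_le_of_lt h1)
      rw [pow_succ']
      simp only [Nat.succ_eq_add_one, mul_add, mul_one] at this
      omega
    · rcases i with _ | i
      · simp [Nat.mod_eq_of_lt (hl 0)]
      · rw [pow_succ', ← Nat.div_div_eq_div_mul, Nat.add_mul_div_left _ _ hB,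
          Nat.div_eq_of_lt (hl 0), zero_add]
        exact h2 i (by omega)

theorem mem_vars {e : Eqn} {x : ℕ} (h : (true, x) ∈ e.1 ++ e.2) : (true, x) ∈ vars e := by
  simp only [vars, List.mem_dedup, List.mem_filter]
  exact ⟨h, trivial⟩

theorem short_sol {e : Eqn} {h : ℕ → List ℕ} (hs : value h e.1 = value h e.2) :
    ∃ g : ℕ → List ℕ, value g e.1 = value g e.2 ∧ ∀ x, (g x).length ≤
      (e.1.length + e.2.length + 2) ^ (2 ^ (10 ^ 8 * ((vars e).length + 1) ^ 14)) := by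
  let tr : Bool × ℕ → ℕ ⊕ Fin (vars e).length := fun s =>
    if hx : s.1 = true ∧ (vars e).idxOf s < (vars e).length then Sum.inr ⟨_, hx.2⟩
    else Sum.inl s.2
  have key : ∀ (g : ℕ → List ℕ) (g' : Fin (vars e).length → List ℕ),
      (∀ x (hx : (vars e).idxOf (true, x) < (vars e).length), g x = g' ⟨_, hx⟩) →
      ∀ W : List (Bool × ℕ), (∀ s ∈ W, s ∈ e.1 ++ e.2) →
      value g W = (W.map tr).flatMap (Sum.elim (fun a => [a]) g') := by
    intro g g' hg W hW
    simp only [value, List.flatMap_map]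
    refine List.flatMap_congr fun s hs => ?_
    obtain ⟨b, x⟩ := s
    cases b
    · simp [tr]
    · have := List.idxOf_lt_length_of_mem (mem_vars (hW _ hs))
      simp [tr, this, hg x this]
  have h1 := key h (fun i => h (vars e)[i].2) (fun x hx => by simp)
  obtain ⟨g', s1, s2⟩ := Results.MP_493d38_lc.FewVariables.result _ ℕ (e.1.map tr) (e.2.map tr)
    (fun i => h (vars e)[i].2)
    (by rw [← h1 _ (by simp +contextual), ← h1 _ (by simp +contextual), hs])
  have h2 := key (fun x => if hx : (vars e).idxOf (true, x) < (vars e).length then g' ⟨_, hx⟩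
    else []) g' (fun x hx => dif_pos hx)
  refine ⟨_, by rw [h2 _ (by simp +contextual), h2 _ (by simp +contextual), s1], fun x => ?_⟩
  split_ifs
  · simpa using s2 _
  · simp

theorem alg_complete {e : Eqn} {h : ℕ → List ℕ} (hs : value h e.1 = value h e.2) {c : List Bool}
    (hc : ((e.1.length + e.2.length + 2) ^ (2 ^ (10 ^ 8 * ((vars e).length + 1) ^ 14)) + 1) ^
      ((vars e).length + 1) < c.length) : alg (e, c) = true := by
  obtain ⟨g, s1, s2⟩ := short_sol hs
  generalize (e.1.length + e.2.length + 2) ^ (2 ^ (10 ^ 8 * ((vars e).length + 1) ^ 14)) = D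
    at hc s2
  obtain ⟨m, m1, m2⟩ := exists_code (D + 1) (by omega) (vars e).length
    (fun i => (g ((vars e).getD i (true, 0)).2).length) (fun i => Nat.lt_succ_of_le (s2 _))
  have b1 : D + 1 ≤ (D + 1) ^ ((vars e).length + 1) := Nat.le_self_pow (by omega) _
  have b2 : (D + 1) ^ (vars e).length ≤ (D + 1) ^ ((vars e).length + 1) :=
    Nat.pow_le_pow_right (by omega) (by omega)
  simp only [alg, List.any_eq_true, List.mem_range]
  refine ⟨D + 1, by omega, m, by omega, chk_complete s1 fun x hx => ?_⟩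
  have := List.idxOf_lt_length_of_mem (mem_vars hx)
  have h3 := s2 x
  rw [m2 _ this, List.take_range]
  simp only [List.getD_eq_getElem _ _ this, List.getElem_idxOf]
  rw [min_eq_left (by omega)]

theorem restrict {e : Eqn} {S : Set ℕ} (hS : ∀ a, (false, a) ∈ e.1 ++ e.2 → a ∈ S)
    {h : ℕ → List ℕ} (hs : value h e.1 = value h e.2) :
    ∃ g : ℕ → List ℕ, (∀ x, ∀ a ∈ g x, a ∈ S) ∧ value g e.1 = value g e.2 := by
  classical
  have key : ∀ W : List (Bool × ℕ), (∀ s ∈ W, s ∈ e.1 ++ e.2) →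
      value (fun x => (h x).filter fun a => decide (a ∈ S)) W =
        (value h W).filter fun a => decide (a ∈ S) := by
    intro W hW
    simp only [value, List.filter_flatMap]
    refine List.flatMap_congr fun s hs => ?_
    obtain ⟨b, x⟩ := s
    cases b
    · simp [hS x (hW _ hs)]
    · simp
  exact ⟨fun x => (h x).filter fun a => decide (a ∈ S),
    fun x a ha => by simpa using (List.mem_filter.mp ha).2,
    by rw [key _ (by simp +contextual), key _ (by simp +contextual), hs]⟩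

theorem eval_le (q : Polynomial ℕ) : ∃ D, ∀ x, q.eval x ≤ (x + 2) ^ D := by
  refine ⟨q.natDegree + q.eval 1, fun x => ?_⟩
  have h1 := eval_mul_le q le_rfl 1 (x + 2) (by omega)
  have h2 : q.eval 1 ≤ (x + 2) ^ q.eval 1 :=
    Nat.lt_two_pow_self.le.trans (Nat.pow_le_pow_left (by omega) _)
  rw [pow_add]
  exact ((eval_mono q (by omega)).trans h1).trans (Nat.mul_le_mul_left _ h2)

/-- logarithm of the first clock -/
def s1 (e : Eqn) : ℕ := 10 ^ 8 * ((vars e).length + 1) ^ 14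

/-- logarithm of the second clock -/
def s2 (p : Eqn × List Bool) : ℕ :=
  ((p.1.1.length + p.1.2.length + 2).bits.length * p.2.length + 1) * ((vars p.1).length + 1) + 1

/-- the decision -/
def dec (e : Eqn) : Bool :=
  alg (e, List.replicate (2 ^ s2 (e, List.replicate (2 ^ s1 e) true)) true)

theorem dec_iff (e : Eqn) : dec e = true ↔ ∃ h : ℕ → List ℕ, value h e.1 = value h e.2 := by
  refine ⟨alg_sound, fun ⟨h, hs⟩ => alg_complete hs ?_⟩
  simp only [List.length_replicate, s2, s1, Nat.size_eq_bits_len]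
  generalize 2 ^ (10 ^ 8 * ((vars e).length + 1) ^ 14) = E
  generalize e.1.length + e.2.length + 2 = n
  have h1 : n ^ E ≤ 2 ^ (n.size * E) := by
    rw [pow_mul]
    exact Nat.pow_le_pow_left (Nat.lt_size_self n).le _
  have h2 : n ^ E + 1 ≤ 2 ^ (n.size * E + 1) := by
    have : 1 ≤ 2 ^ (n.size * E) := Nat.one_le_two_pow
    omega
  refine (Nat.pow_le_pow_left h2 _).trans_lt ?_
  rw [← pow_mul]
  exact Nat.pow_lt_pow_right (by omega) (by omega)

theorem arith {d1 d2 D1 D2 N E s z k A1 A2 : ℕ} (l5 : s < E) (l9 : 2 ^ z ≤ (N + 2) ^ 2)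
    (a1 : A1 ≤ (N + 2) ^ D1) (a2 : A2 ≤ (2 * N + 1 + 3 * E + 2) ^ D2) :
    2 ^ (d1 * s) * A1 + 2 ^ (d2 * ((z * E + 1) * (k + 1) + 1)) * A2 + 1 ≤
      (N + 2) ^ (E * (k + 1) * (d1 + D1 + 4 * d2 + 3 * D2 + 2)) := by
  have two : ∀ a, 2 ^ a ≤ (N + 2) ^ a := fun a => Nat.pow_le_pow_left (by omega) a
  have F2 : E ≤ E * (k + 1) := Nat.le_mul_of_pos_right _ (by omega)
  have F3 : k + 1 ≤ E * (k + 1) := Nat.le_mul_of_pos_left _ (by omega)
  have b2 : 2 ^ ((z * E + 1) * (k + 1) + 1) ≤ (N + 2) ^ (E * (k + 1) * 4) := by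
    have : 2 ^ ((z * E + 1) * (k + 1) + 1) = (2 ^ z) ^ (E * (k + 1)) * 2 ^ (k + 2) := by
      rw [← pow_mul, ← pow_add, show (z * E + 1) * (k + 1) + 1 = z * (E * (k + 1)) + (k + 2) by ring]
    rw [this]
    refine (Nat.mul_le_mul (Nat.pow_le_pow_left l9 _) (two _)).trans ?_
    rw [← pow_mul, ← pow_add]
    exact Nat.pow_le_pow_right (by omega) (by omega)
  generalize E * (k + 1) = F at *
  have b1 : 2 ^ (d1 * s) * A1 ≤ (N + 2) ^ (F * (d1 + D1)) := by
    refine (Nat.mul_le_mul (two _) a1).trans ?_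
    rw [← pow_add, mul_add, mul_comm d1]
    exact Nat.pow_le_pow_right (by omega) (Nat.add_le_add (Nat.mul_le_mul_right _ (by omega))
      (Nat.le_mul_of_pos_left _ (by omega)))
  have b3 : 2 * N + 1 + 3 * E + 2 ≤ (N + 2) ^ (F * 3) := by
    have h3 : E + 1 ≤ (N + 2) ^ E := (Nat.succ_le_of_lt Nat.lt_two_pow_self).trans (two E)
    have h4 : (N + 2) ^ (E + 2) ≤ (N + 2) ^ (F * 3) := Nat.pow_le_pow_right (by omega) (by omega)
    have h5 := Nat.mul_le_mul_right ((N + 2) ^ 2) h3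
    rw [← pow_add] at h5
    have h6 : (E + 1) * (N + 2) ^ 2 = (E + 1) * (N * N) + 4 * (E * N) + 4 * N + 4 * E + 4 := by ring
    omega
  have b4 : 2 ^ (d2 * ((z * E + 1) * (k + 1) + 1)) * A2 ≤ (N + 2) ^ (F * (4 * d2 + 3 * D2)) := by
    rw [mul_comm d2, pow_mul]
    refine (Nat.mul_le_mul (Nat.pow_le_pow_left b2 _) (a2.trans (Nat.pow_le_pow_left b3 _))).trans ?_
    rw [← pow_mul, ← pow_mul, ← pow_add]
    exact Nat.pow_le_pow_right (by omega) (le_of_eq (by ring))
  have b5 : (N + 2) ^ (F * (d1 + D1)) ≤ (N + 2) ^ (F * (d1 + D1 + 4 * d2 + 3 * D2)) :=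
    Nat.pow_le_pow_right (by omega) (Nat.mul_le_mul_left _ (by omega))
  have b6 : (N + 2) ^ (F * (4 * d2 + 3 * D2)) ≤ (N + 2) ^ (F * (d1 + D1 + 4 * d2 + 3 * D2)) :=
    Nat.pow_le_pow_right (by omega) (Nat.mul_le_mul_left _ (by omega))
  have b7 : 2 ^ 2 ≤ (N + 2) ^ (F * 2) := (two 2).trans (Nat.pow_le_pow_right (by omega) (by omega))
  have b8 : 1 ≤ (N + 2) ^ (F * (d1 + D1 + 4 * d2 + 3 * D2)) := Nat.one_le_pow _ _ (by omega)
  rw [mul_add F _ 2, pow_add]
  have := Nat.mul_le_mul_left ((N + 2) ^ (F * (d1 + D1 + 4 * d2 + 3 * D2))) b7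
  omega

theorem expo (c d k : ℕ) : 2 ^ (c * (k + 1) ^ 14) * (k + 1) * d ≤
    2 ^ ((c + 1 + d) * (k + 1) ^ 14) := by
  have h0 : k + 1 ≤ (k + 1) ^ 14 := Nat.le_self_pow (by omega) _
  generalize (k + 1) ^ 14 = K at h0
  rw [add_mul, add_mul, one_mul, pow_add, pow_add]
  exact Nat.mul_le_mul (Nat.mul_le_mul_left _ (h0.trans Nat.lt_two_pow_self.le))
    ((Nat.le_mul_of_pos_right _ (by omega)).trans Nat.lt_two_pow_self.le)

theorem size_le {n N : ℕ} (h : n ≤ N) : 2 ^ (n + 2).size ≤ (N + 2) ^ 2 := by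
  have h3 : 0 < (n + 2).size := Nat.size_pos.mpr (by omega)
  have h4 := Nat.lt_size.mp (Nat.sub_one_lt h3.ne')
  have h5 : 2 ^ (n + 2).size = 2 * 2 ^ ((n + 2).size - 1) := by
    rw [← pow_succ', Nat.sub_one_add_one h3.ne']
  have h6 : (N + 2) ^ 2 = N * N + 4 * N + 4 := by ring
  omega

theorem dec_run : ∃ (p : Prog) (C : ℕ), ∀ e : Eqn, ∃ t, Run p (io (bitEncode e))
    (io (bitEncode (dec e))) t ∧
    t + 1 ≤ (sz e + 2) ^ 2 ^ (C * ((vars e).length + 1) ^ 14) := by
  obtain ⟨d1, h1⟩ := PT.exp_run (α := Eqn) (A := fun p : Eqn × List Bool => p) (by fun_prop)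
  obtain ⟨p1, q1, h1⟩ := h1 (fun e => e) s1 (by fun_prop) (by unfold s1; fun_prop)
    (by unfold s1; fun_prop)
  obtain ⟨d2, h2⟩ := PT.exp_run (α := Eqn × List Bool) alg_pt
  obtain ⟨p2, q2, h2⟩ := h2 (fun p => p.1) s2 (by fun_prop) (by unfold s2; fun_prop)
    (by unfold s2; fun_prop)
  obtain ⟨D1, e1⟩ := eval_le q1
  obtain ⟨D2, e2⟩ := eval_le q2
  refine ⟨.seq p1 p2, 10 ^ 8 + 1 + (d1 + D1 + 4 * d2 + 3 * D2 + 2), fun e =>
    ⟨_, Run.seq (h1 e) (h2 (e, List.replicate (2 ^ s1 e) true)), ?_⟩⟩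
  have a2 := e2 (sz (e, List.replicate (2 ^ s1 e) true))
  have l1 := length_le_sz e.1
  have l2 := length_le_sz e.2
  have l3 := sz_prod e
  have l4 : sz (e, List.replicate (2 ^ s1 e) true) = 2 * sz e + 1 + 3 * 2 ^ s1 e := by
    rw [sz_pair, sz_listBool, List.length_replicate]
  refine le_trans ?_ (Nat.pow_le_pow_right (Nat.succ_pos _) (expo _ _ _))
  rw [l4] at a2 ⊢
  simp only [s2, List.length_replicate, Nat.size_eq_bits_len]
  exact arith Nat.lt_two_pow_self (size_le (by omega)) (e1 _) a2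

end Pool.Agent.Lib.MP_493d38_lc.XP
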