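import Pool.Agent.Shared.PolyTime

/-!
Solving a word equation with prescribed lengths: unification of position tokens.
-/

namespace Pool.Agent.Lib.MP_493d38_lc.XP

open Pool.Agent.Shared.PolyTime

/-- a position of a symbol: the symbol (flag `true` for a variable) and an index -/
abbrev Tk := (Bool × ℕ) × ℕ

/-- replace `s` by `t` -/
def rp (s t q : Tk) : Tk := if q = s then t else q

/-- replace `s` by `t` in all pairs -/
def rps (s t : Tk) (E : List (Tk × Tk)) : List (Tk × Tk) :=
  E.map fun q => (rp s t q.1, rp s t q.2)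

/-- treat the first pair -/
def step (s : Bool × List (Tk × Tk)) : Bool × List (Tk × Tk) :=
  lcase s.2 s fun p E => bif p.1.1.1 then (s.1, rps p.1 p.2 E) else
    bif p.2.1.1 then (s.1, rps p.2 p.1 E) else (s.1 && p.1 == p.2, E)

/-- the pairs can be made equal by a map fixing the constant tokens -/
def Solv (E : List (Tk × Tk)) : Prop :=
  ∃ lam : Tk → Tk, (∀ t, t.1.1 = false → lam t = t) ∧ ∀ p ∈ E, lam p.1 = lam p.2

/-- the unification algorithm -/
def uni (E : List (Tk × Tk)) : Bool := (step^[E.length] (true, E)).1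

theorem solv_rps {s t : Tk} (hs : s.1.1 = true) (E : List (Tk × Tk)) :
    Solv (rps s t E) ↔ ∃ lam : Tk → Tk, (∀ t, t.1.1 = false → lam t = t) ∧ lam s = lam t ∧
      ∀ p ∈ E, lam p.1 = lam p.2 := by
  constructor
  · rintro ⟨lam, h1, h2⟩
    refine ⟨fun q => lam (rp s t q), fun q hq => ?_, ?_, fun p hp => ?_⟩
    · have : q ≠ s := fun h => by rw [h, hs] at hq; exact absurd hq (by simp)
      simp only [rp, this, if_false, h1 q hq]
    · simp only [rp, if_true]
      split_ifs <;> rfl
    · exact h2 _ (List.mem_map.mpr ⟨p, hp, rfl⟩)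
  · rintro ⟨lam, h1, h2, h3⟩
    have key : ∀ q, lam (rp s t q) = lam q := fun q => by
      unfold rp
      split_ifs with h
      · rw [h, h2]
      · rfl
    refine ⟨lam, h1, fun p hp => ?_⟩
    obtain ⟨q, hq, rfl⟩ := List.mem_map.mp hp
    simp only [key, h3 q hq]

theorem step_solv (s : Bool × List (Tk × Tk)) :
    ((step s).1 = true ∧ Solv (step s).2) ↔ (s.1 = true ∧ Solv s.2) := by
  obtain ⟨ok, E⟩ := s
  rcases E with _ | ⟨p, E⟩
  · rfl
  · have hc : Solv (p :: E) ↔ ∃ lam : Tk → Tk, (∀ t, t.1.1 = false → lam t = t) ∧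
        lam p.1 = lam p.2 ∧ ∀ p ∈ E, lam p.1 = lam p.2 := by
      simp only [Solv, List.forall_mem_cons]
    simp only [step, lcase, hc]
    cases h1 : p.1.1.1
    · cases h2 : p.2.1.1
      · simp only [cond_false, Bool.and_eq_true, beq_iff_eq, and_assoc]
        refine and_congr_right fun _ => ⟨?_, ?_⟩
        · rintro ⟨h, lam, a1, a2⟩
          exact ⟨lam, a1, by rw [h], a2⟩
        · rintro ⟨lam, a1, a2, a3⟩
          rw [a1 _ h1, a1 _ h2] at a2
          exact ⟨a2, lam, a1, a3⟩
      · simp only [cond_false, cond_true, solv_rps h2]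
        refine and_congr_right fun _ => exists_congr fun lam => and_congr_right fun _ =>
          and_congr_left fun _ => eq_comm
    · simp only [cond_true, solv_rps h1]

theorem step_length (s : Bool × List (Tk × Tk)) : (step s).2.length = s.2.length - 1 := by
  obtain ⟨ok, E⟩ := s
  rcases E with _ | ⟨p, E⟩
  · rfl
  · simp only [step, lcase]
    cases p.1.1.1 <;> cases p.2.1.1 <;> simp [rps]

theorem iter_solv (n : ℕ) : ∀ s : Bool × List (Tk × Tk), s.2.length = n →
    ((step^[n] s).1 = true ↔ (s.1 = true ∧ Solv s.2)) := by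
  induction n with
  | zero =>
    intro s hs
    rw [List.length_eq_zero_iff.mp hs]
    exact ⟨fun h => ⟨h, _root_.id, fun _ _ => rfl, by simp⟩, fun h => h.1⟩
  | succ n ih =>
    intro s hs
    rw [Function.iterate_succ_apply, ih _ (by rw [step_length]; omega), step_solv]

theorem uni_iff (E : List (Tk × Tk)) : uni E = true ↔ Solv E := by
  rw [uni, iter_solv E.length (true, E) rfl]
  simp

theorem step_pt : PT step := by
  unfold step rps rp
  fun_prop

theorem step_sz {Z : ℕ} {s : Bool × List (Tk × Tk)} (h : ∀ p ∈ s.2, sz p.1 ≤ Z ∧ sz p.2 ≤ Z) :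
    ∀ p ∈ (step s).2, sz p.1 ≤ Z ∧ sz p.2 ≤ Z := by
  obtain ⟨ok, E⟩ := s
  rcases E with _ | ⟨p, E⟩
  · exact h
  · have h0 := h p (by simp)
    have h1 : ∀ q ∈ E, sz q.1 ≤ Z ∧ sz q.2 ≤ Z := fun q hq => h q (by simp [hq])
    have key : ∀ s t : Tk, sz t ≤ Z → ∀ q ∈ rps s t E, sz q.1 ≤ Z ∧ sz q.2 ≤ Z := by
      intro s t ht q hq
      obtain ⟨r, hr, rfl⟩ := List.mem_map.mp hq
      have := h1 r hr
      simp only [rp]
      constructor <;> split_ifs <;> omega
    simp only [step, lcase]
    cases p.1.1.1 <;> cases p.2.1.1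
    · exact h1
    · exact key _ _ h0.1
    · exact key _ _ h0.2
    · exact key _ _ h0.2

theorem uni_pt0 : PT uni := by
  have := PT.iterate_inv (α := List (Tk × Tk)) (f := fun _ s => step s) (n := fun E => E.length)
    (s0 := fun E => (true, E)) (step_pt.comp' (by fun_prop)) (by fun_prop) (by fun_prop)
    (by fun_prop)
    (fun E s => s.2.length ≤ E.length ∧ ∀ p ∈ s.2, sz p.1 ≤ sz E ∧ sz p.2 ≤ sz E)
    (fun E => ⟨le_rfl, fun p hp => by
      have := sz_mem (l := E) hp
      have := sz_prod p
      omega⟩)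
    (fun E s h => ⟨by rw [step_length]; omega, step_sz h.2⟩)
    (B := fun E => 3 + E.length * (2 * (3 * sz E + 1) + 1)) (by fun_prop) (fun E s h => by
      have h1 := sz_list_le (l := s.2) (B := 3 * sz E + 1) (fun p hp => by
        have := h.2 p hp
        have := sz_prod p
        omega)
      have h2 := Nat.mul_le_mul_right (2 * (3 * sz E + 1) + 1) h.1
      have h3 := sz_prod s
      have h4 : sz s.1 = 1 := rfl
      omega)
  exact this.fst

@[fun_prop] theorem uni_pt {α : Type} [N487b59b3 α] {E : α → List (Tk × Tk)} (h : PT E) :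
    PT (fun a => uni (E a)) := uni_pt0.comp' h

theorem zip_iff (lam : Tk → Tk) : ∀ P Q : List Tk, P.length = Q.length →
    ((∀ p ∈ P.zip Q, lam p.1 = lam p.2) ↔ P.map lam = Q.map lam)
  | [], [], _ => by simp
  | a :: P, b :: Q, h => by
    simp only [List.zip_cons_cons, List.forall_mem_cons, List.map_cons, List.cons.injEq,
      zip_iff lam P Q (by simpa using h)]

/-- value of a side -/
def value (h : ℕ → List ℕ) (U : List (Bool × ℕ)) : List ℕ :=
  U.flatMap fun s => bif s.1 then h s.2 else [s.2]

/-- tokens of a side -/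
def toks (I : Bool × ℕ → List ℕ) (U : List (Bool × ℕ)) : List Tk :=
  U.flatMap fun s => bif s.1 then (I s).map (fun i => (s, i)) else [(s, 0)]

/-- the check for given index lists -/
def chk (I : Bool × ℕ → List ℕ) (U V : List (Bool × ℕ)) : Bool :=
  (toks I U).length == (toks I V).length && uni ((toks I U).zip (toks I V))

theorem chk_sound {I : Bool × ℕ → List ℕ} {U V : List (Bool × ℕ)} (h : chk I U V = true) :
    ∃ h : ℕ → List ℕ, value h U = value h V := by
  simp only [chk, Bool.and_eq_true, beq_iff_eq, uni_iff] at h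
  obtain ⟨hl, lam, h1, h2⟩ := h
  rw [zip_iff lam _ _ hl] at h2
  have key : ∀ W, value (fun x => (I (true, x)).map fun i => (lam ((true, x), i)).1.2) W =
      ((toks I W).map lam).map (fun t => t.1.2) := by
    intro W
    simp only [value, toks, List.map_flatMap]
    refine List.flatMap_congr fun s _ => ?_
    obtain ⟨b, x⟩ := s
    cases b
    · simp [h1]
    · simp
  exact ⟨_, by rw [key, key, h2]⟩

theorem chk_complete {I : Bool × ℕ → List ℕ} {U V : List (Bool × ℕ)} {h : ℕ → List ℕ}
    (hs : value h U = value h V)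
    (hI : ∀ x, (true, x) ∈ U ++ V → I (true, x) = List.range (h x).length) :
    chk I U V = true := by
  let lam : Tk → Tk := fun t => bif t.1.1 then ((false, (h t.1.2).getD t.2 0), 0) else t
  have key : ∀ W : List (Bool × ℕ), (∀ s ∈ W, s ∈ U ++ V) →
      (toks I W).map lam = (value h W).map (fun a => ((false, a), 0)) := by
    intro W hW
    simp only [value, toks, List.map_flatMap]
    refine List.flatMap_congr fun s hs => ?_
    obtain ⟨b, x⟩ := s
    cases b
    · simp [lam]
    · simp only [cond_true, hI x (hW _ hs), List.map_map]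
      apply List.ext_getElem (by simp)
      intro i h1 h2
      have : i < (h x).length := by simpa using h2
      simp [lam, this]
  have e : (toks I U).map lam = (toks I V).map lam := by
    rw [key U (by simp +contextual), key V (by simp +contextual), hs]
  have hl : (toks I U).length = (toks I V).length := by simpa using congrArg List.length e
  simp only [chk, Bool.and_eq_true, beq_iff_eq, uni_iff]
  exact ⟨hl, lam, fun t ht => by simp [lam, ht], (zip_iff lam _ _ hl).mpr e⟩

end Pool.Agent.Lib.MP_493d38_lc.XP
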